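import Pool.Agent.Q263.IW.Def

/-!
# Project IWP (helper263), job CLOSED: the set of billiard loops is closed (helper285)

Adapted from `Pool/Agent/Q38/IV/Closed2.lean`.
-/

set_option autoImplicit false

open Set MeasureTheory Function Topology

namespace Q285.IW

open Pool.Agent.Y322.IV Q263.IV Q263.IW

/-- the index `min k n` -/
def ph (n k : ℕ) : Fin (n + 1) := ⟨min k n, by omega⟩

theorem ph_val {n k : ℕ} (hk : k ≤ n) : ((ph n k : Fin (n + 1)) : ℕ) = k := by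
  simp [ph, hk]

section

variable {E : Type} [NormedAddCommGroup E] [InnerProductSpace ℝ E]
  {S : Type} [NormedAddCommGroup S]

theorem loop3_congr {m : ℕ} {h : Fin m → E → ℝ} {G : Fin m → E → E} {P1 : Fin m → S → E → ℝ}
    {P2 : Fin m → S → E → E} {e y w : E} {n : ℕ} {ι : ℕ → Fin m} {c M a : ℝ} {b : S}
    {p u p' u' : ℕ → E} {τ τ' : ℕ → ℝ} (H : Loop3 h G P1 P2 e y w n ι c M a p u τ b)
    (hp : ∀ k ≤ n, p' k = p k) (hu : ∀ k ≤ n, u' k = u k) (hτ : ∀ k < n, τ' k = τ k) :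
    Loop3 h G P1 P2 e y w n ι c M a p' u' τ' b where
  ybd := H.ybd
  wbd := H.wbd
  abd := H.abd
  start := by rw [hp 0 (Nat.zero_le n)]; exact H.start
  dir := by rw [hu 0 (Nat.zero_le n)]; exact H.dir
  zero := fun k hk => by rw [hp k hk]; exact H.zero k hk
  unit := fun k hk => by rw [hu k hk]; exact H.unit k hk
  out := fun k hk => by rw [hp k hk, hu k hk]; exact H.out k hk
  tlo := fun k hk => by rw [hτ k hk]; exact H.tlo k hk
  thi := fun k hk => by rw [hτ k hk]; exact H.thi k hk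
  move := fun k hk => by rw [hp (k + 1) hk, hp k hk.le, hu k hk.le, hτ k hk]; exact H.move k hk
  refl := fun k hk => by rw [hp (k + 1) hk, hu (k + 1) hk, hu k hk.le]; exact H.refl k hk
  ret := by rw [hp 0 (Nat.zero_le n), hp n le_rfl]; exact H.ret
  wall := H.wall
  nonret := by rw [hu 0 (Nat.zero_le n), hu (n - 1) (by omega)]; exact H.nonret
  bbd := H.bbd
  sep0 := by rw [hp 0 (Nat.zero_le n)]; exact H.sep0
  sep1 := fun k hk hkn => by rw [hp k hkn.le]; exact H.sep1 k hk hkn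
  sep2 := fun k hk hkn => by rw [hp k hkn.le]; exact H.sep2 k hk hkn

/-- the space of the data of a loop -/
abbrev Y (E S : Type) (n : ℕ) : Type :=
  ℝ × (Fin (n + 1) → E) × (Fin (n + 1) → E) × (Fin (n + 1) → ℝ) × S

theorem closed_C {T : Type} [TopologicalSpace T] {m : ℕ} (F : T → Fin m → E → ℝ)
    (G : T → Fin m → E → E) (P1 : T → Fin m → S → E → ℝ) (P2 : T → Fin m → S → E → E)
    (hF : ∀ i, Continuous (fun z : T × E => F z.1 i z.2))
    (hG : ∀ i, Continuous (fun z : T × E => G z.1 i z.2))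
    (hP1 : ∀ i, Continuous (fun z : T × S × E => P1 z.1 i z.2.1 z.2.2))
    (hP2 : ∀ i, Continuous (fun z : T × S × E => P2 z.1 i z.2.1 z.2.2))
    (e : E) (n : ℕ) (ι : ℕ → Fin m) (c M : ℝ) :
    IsClosed {z : (T × ((ℝ ∙ e)ᗮ × (ℝ ∙ e)ᗮ)) × Y E S n | Loop3 (F z.1.1) (G z.1.1) (P1 z.1.1)
      (P2 z.1.1) e
      (z.1.2.1 : E) (z.1.2.2 : E) n ι c M z.2.1 (fun k => z.2.2.1 (ph n k))
      (fun k => z.2.2.2.1 (ph n k)) (fun k => z.2.2.2.2.1 (ph n k)) z.2.2.2.2.2} := by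
  set C := {z : (T × ((ℝ ∙ e)ᗮ × (ℝ ∙ e)ᗮ)) × Y E S n | Loop3 (F z.1.1) (G z.1.1) (P1 z.1.1)
      (P2 z.1.1) e
      (z.1.2.1 : E) (z.1.2.2 : E) n ι c M z.2.1 (fun k => z.2.2.1 (ph n k))
      (fun k => z.2.2.2.1 (ph n k)) (fun k => z.2.2.2.2.1 (ph n k)) z.2.2.2.2.2} with hC
  apply isClosed_of_closure_subset
  intro z hz
  have key : ∀ A : Set ((T × ((ℝ ∙ e)ᗮ × (ℝ ∙ e)ᗮ)) × Y E S n), IsClosed A → C ⊆ A → z ∈ A :=
    fun A hA h => closure_minimal h hA hz
  have cy : Continuous (fun z : (T × ((ℝ ∙ e)ᗮ × (ℝ ∙ e)ᗮ)) × Y E S n => (z.1.2.1 : E)) := by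
    fun_prop
  have cw : Continuous (fun z : (T × ((ℝ ∙ e)ᗮ × (ℝ ∙ e)ᗮ)) × Y E S n => (z.1.2.2 : E)) := by
    fun_prop
  have ca : Continuous (fun z : (T × ((ℝ ∙ e)ᗮ × (ℝ ∙ e)ᗮ)) × Y E S n => z.2.1) := by
    fun_prop
  have cp : ∀ k, Continuous (fun z : (T × ((ℝ ∙ e)ᗮ × (ℝ ∙ e)ᗮ)) × Y E S n =>
      z.2.2.1 (ph n k)) := by
    intro k; fun_prop
  have cu : ∀ k, Continuous (fun z : (T × ((ℝ ∙ e)ᗮ × (ℝ ∙ e)ᗮ)) × Y E S n =>
      z.2.2.2.1 (ph n k)) := by
    intro k; fun_prop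
  have ct : ∀ k, Continuous (fun z : (T × ((ℝ ∙ e)ᗮ × (ℝ ∙ e)ᗮ)) × Y E S n =>
      z.2.2.2.2.1 (ph n k)) := by
    intro k; fun_prop
  have cT : Continuous (fun z : (T × ((ℝ ∙ e)ᗮ × (ℝ ∙ e)ᗮ)) × Y E S n => z.1.1) := by
    fun_prop
  have cb : Continuous (fun z : (T × ((ℝ ∙ e)ᗮ × (ℝ ∙ e)ᗮ)) × Y E S n => z.2.2.2.2.2) := by
    fun_prop
  have cE : ∀ k, Continuous (fun z : (T × ((ℝ ∙ e)ᗮ × (ℝ ∙ e)ᗮ)) × Y E S n =>
      P1 z.1.1 (ι k) z.2.2.2.2.2 (z.2.2.1 (ph n k))) := fun k =>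
    (hP1 (ι k)).comp (cT.prodMk (cb.prodMk (cp k)))
  have cD : ∀ k, Continuous (fun z : (T × ((ℝ ∙ e)ᗮ × (ℝ ∙ e)ᗮ)) × Y E S n =>
      P2 z.1.1 (ι k) z.2.2.2.2.2 (z.2.2.1 (ph n k))) := fun k =>
    (hP2 (ι k)).comp (cT.prodMk (cb.prodMk (cp k)))
  have cF : ∀ (i : Fin m) (q : (T × ((ℝ ∙ e)ᗮ × (ℝ ∙ e)ᗮ)) × Y E S n → E), Continuous q →
      Continuous (fun z => F z.1.1 i (q z)) := fun i q hq => (hF i).comp (cT.prodMk hq)
  have cG : ∀ (i : Fin m) (q : (T × ((ℝ ∙ e)ᗮ × (ℝ ∙ e)ᗮ)) × Y E S n → E), Continuous q →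
      Continuous (fun z => G z.1.1 i (q z)) := fun i q hq => (hG i).comp (cT.prodMk hq)
  have htlo : ∀ k < n, c ≤ z.2.2.2.2.1 (ph n k) := fun k hk =>
    key {z | c ≤ z.2.2.2.2.1 (ph n k)} (isClosed_le continuous_const (ct k))
      (fun z hz => hz.tlo k hk)
  exact
    { ybd := key {z | ‖(z.1.2.1 : E)‖ ≤ M} (isClosed_le cy.norm continuous_const)
        (fun z hz => hz.ybd)
      wbd := key {z | ‖(z.1.2.2 : E)‖ ≤ M} (isClosed_le cw.norm continuous_const)
        (fun z hz => hz.wbd)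
      abd := key {z | |z.2.1| ≤ M} (isClosed_le ca.abs continuous_const) (fun z hz => hz.abd)
      start := key {z | z.2.2.1 (ph n 0) = (z.1.2.1 : E) + z.2.1 • (e + (z.1.2.2 : E))}
        (isClosed_eq (cp 0) (cy.add (ca.smul (continuous_const.add cw)))) (fun z hz => hz.start)
      dir := key {z | ‖e + (z.1.2.2 : E)‖ • z.2.2.2.1 (ph n 0) = e + (z.1.2.2 : E)}
        (isClosed_eq ((continuous_const.add cw).norm.smul (cu 0)) (continuous_const.add cw))
        (fun z hz => hz.dir)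
      zero := fun k hk => key {z | F z.1.1 (ι k) (z.2.2.1 (ph n k)) = 0}
        (isClosed_eq (cF _ _ (cp k)) continuous_const) (fun z hz => hz.zero k hk)
      unit := fun k hk => key {z | ‖z.2.2.2.1 (ph n k)‖ = 1}
        (isClosed_eq (cu k).norm continuous_const) (fun z hz => hz.unit k hk)
      out := fun k hk => key {z | inner ℝ (z.2.2.2.1 (ph n k)) (G z.1.1 (ι k) (z.2.2.1 (ph n k))) ≤ -c}
        (isClosed_le ((cu k).inner (cG _ _ (cp k))) continuous_const) (fun z hz => Loop3.out hz k hk)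
      tlo := htlo
      thi := fun k hk => key {z | z.2.2.2.2.1 (ph n k) ≤ M} (isClosed_le (ct k) continuous_const)
        (fun z hz => hz.thi k hk)
      move := fun k hk => key {z | z.2.2.1 (ph n (k + 1)) = z.2.2.1 (ph n k) +
          z.2.2.2.2.1 (ph n k) • z.2.2.2.1 (ph n k)}
        (isClosed_eq (cp (k + 1)) ((cp k).add ((ct k).smul (cu k)))) (fun z hz => hz.move k hk)
      refl := fun k hk => key {z | ‖G z.1.1 (ι (k + 1)) (z.2.2.1 (ph n (k + 1)))‖ ^ 2 •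
          z.2.2.2.1 (ph n (k + 1)) = ‖G z.1.1 (ι (k + 1)) (z.2.2.1 (ph n (k + 1)))‖ ^ 2 •
          z.2.2.2.1 (ph n k) - (2 * inner ℝ (z.2.2.2.1 (ph n k))
            (G z.1.1 (ι (k + 1)) (z.2.2.1 (ph n (k + 1))))) •
              G z.1.1 (ι (k + 1)) (z.2.2.1 (ph n (k + 1)))}
        (isClosed_eq (((cG _ _ (cp (k + 1))).norm.pow 2).smul (cu (k + 1)))
          ((((cG _ _ (cp (k + 1))).norm.pow 2).smul (cu k)).sub
            ((continuous_const.mul ((cu k).inner (cG _ _ (cp (k + 1))))).smul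
              (cG _ _ (cp (k + 1)))))) (fun z hz => hz.refl k hk)
      ret := key {z | z.2.2.1 (ph n n) = z.2.2.1 (ph n 0)}
        (isClosed_eq (cp n) (cp 0)) (fun z hz => hz.ret)
      wall := key {_z | ι n = ι 0} isClosed_const (fun z hz => hz.wall)
      nonret := key {z | c ≤ ‖z.2.2.2.1 (ph n (n - 1)) + z.2.2.2.1 (ph n 0)‖}
        (isClosed_le continuous_const ((cu (n - 1)).add (cu 0)).norm)
        (fun z hz => hz.nonret)
      bbd := key {z | ‖z.2.2.2.2.2‖ ≤ M} (isClosed_le cb.norm continuous_const)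
        (fun z hz => hz.bbd)
      sep0 := key {z | c ≤ P1 z.1.1 (ι 0) z.2.2.2.2.2 (z.2.2.1 (ph n 0))}
        (isClosed_le continuous_const (cE 0)) (fun z hz => hz.sep0)
      sep1 := fun k hk hkn => key {z | P1 z.1.1 (ι k) z.2.2.2.2.2 (z.2.2.1 (ph n k)) = 0}
        (isClosed_eq (cE k) continuous_const) (fun z hz => hz.sep1 k hk hkn)
      sep2 := fun k hk hkn => key {z | P2 z.1.1 (ι k) z.2.2.2.2.2 (z.2.2.1 (ph n k)) = 0}
        (isClosed_eq (cD k) continuous_const) (fun z hz => hz.sep2 k hk hkn) }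

/-- the data of a loop are bounded -/
theorem bound {m : ℕ} {h : Fin m → E → ℝ} {G : Fin m → E → E} {P1 : Fin m → S → E → ℝ}
    {P2 : Fin m → S → E → E} {e y w : E} {n : ℕ} {ι : ℕ → Fin m} {c M a : ℝ} {b : S}
    {p u : ℕ → E} {τ : ℕ → ℝ} (hc : 0 < c) (H : Loop3 h G P1 P2 e y w n ι c M a p u τ b) :
    ∀ k ≤ n, ‖p k‖ ≤ M + M * (‖e‖ + M) + k * M := by
  have hM : 0 ≤ M := (norm_nonneg y).trans H.ybd
  intro k
  induction k with
  | zero =>
    intro _
    rw [H.start]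
    refine (norm_add_le _ _).trans ?_
    rw [norm_smul, Real.norm_eq_abs]
    have h1 : ‖e + w‖ ≤ ‖e‖ + M := (norm_add_le _ _).trans (by linarith [H.wbd])
    have h2 : |a| * ‖e + w‖ ≤ M * (‖e‖ + M) :=
      mul_le_mul H.abd h1 (norm_nonneg _) hM
    have := H.ybd
    push_cast
    linarith
  | succ k ih =>
    intro hk
    have h1 := ih (by omega)
    rw [H.move k hk]
    refine (norm_add_le _ _).trans ?_
    rw [norm_smul, Real.norm_eq_abs, H.unit k (by omega), mul_one,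
      abs_of_nonneg (hc.le.trans (H.tlo k hk))]
    have := H.thi k hk
    push_cast
    linarith

end

theorem closed3 : S_CLOSED3 := by
  intro E _ _ _ S _ _ _ T _ m F G P1 P2 hF hG hP1 hP2 e n ι c M hc
  have : ProperSpace E := FiniteDimensional.proper_real E
  have : ProperSpace S := FiniteDimensional.proper_real S
  set R : ℝ := |M| + |M| * (‖e‖ + |M|) + n * |M| + 1 with hR
  have hR0 : 0 ≤ R := by positivity
  set B : Set (Y E S n) := Metric.closedBall 0 R with hB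
  have hBc : CompactSpace B := isCompact_iff_compactSpace.1 (isCompact_closedBall _ _)
  have hcl := closed_C F G P1 P2 hF hG hP1 hP2 e n ι c M
  have hcl2 : IsClosed {z : (T × ((ℝ ∙ e)ᗮ × (ℝ ∙ e)ᗮ)) × B | Loop3 (F z.1.1) (G z.1.1) (P1 z.1.1)
      (P2 z.1.1) e
      (z.1.2.1 : E) (z.1.2.2 : E) n ι c M (z.2 : Y E S n).1 (fun k => (z.2 : Y E S n).2.1 (ph n k))
      (fun k => (z.2 : Y E S n).2.2.1 (ph n k)) (fun k => (z.2 : Y E S n).2.2.2.1 (ph n k))
      (z.2 : Y E S n).2.2.2.2} :=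
    hcl.preimage (f := fun z : (T × ((ℝ ∙ e)ᗮ × (ℝ ∙ e)ᗮ)) × B => (z.1, (z.2 : Y E S n)))
      (by fun_prop)
  have himg := (isClosedMap_fst_of_compactSpace (X := T × ((ℝ ∙ e)ᗮ × (ℝ ∙ e)ᗮ)) (Y := B)) _ hcl2
  convert himg using 1
  ext z
  constructor
  · rintro ⟨a, p, u, τ, b, H⟩
    have hM : 0 ≤ M := (norm_nonneg _).trans H.ybd
    have hb := bound hc H
    have hnn : (0 : ℝ) ≤ n := Nat.cast_nonneg n
    have hRM : R = M + M * (‖e‖ + M) + n * M + 1 := by rw [hR, abs_of_nonneg hM]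
    have hMe : 0 ≤ M * (‖e‖ + M) := by positivity
    have hnM : 0 ≤ n * M := by positivity
    let y : Y E S n := (a, (fun k : Fin (n + 1) => p k), (fun k : Fin (n + 1) => u k),
      (fun k : Fin (n + 1) => if (k : ℕ) < n then τ k else 0), b)
    have hy : y ∈ B := by
      rw [hB, mem_closedBall_zero_iff]
      refine max_le ?_ (max_le ?_ (max_le ?_ (max_le ?_ ?_)))
      · show ‖a‖ ≤ R
        rw [Real.norm_eq_abs]
        have := H.abd
        linarith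
      · refine (pi_norm_le_iff_of_nonneg hR0).2 fun k => ?_
        have h1 := hb k (by omega)
        have h2 : ((k : ℕ) : ℝ) ≤ n := by exact_mod_cast (by omega : (k : ℕ) ≤ n)
        have h3 : ((k : ℕ) : ℝ) * M ≤ n * M := mul_le_mul_of_nonneg_right h2 hM
        show ‖p k‖ ≤ R
        linarith
      · refine (pi_norm_le_iff_of_nonneg hR0).2 fun k => ?_
        show ‖u k‖ ≤ R
        rw [H.unit k (by omega)]
        linarith
      · refine (pi_norm_le_iff_of_nonneg hR0).2 fun k => ?_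
        show ‖(if (k : ℕ) < n then τ k else 0)‖ ≤ R
        split_ifs with hk
        · rw [Real.norm_eq_abs, abs_of_nonneg (hc.le.trans (H.tlo k hk))]
          have := H.thi k hk
          linarith
        · rw [norm_zero]
          exact hR0
      · show ‖b‖ ≤ R
        have := H.bbd
        linarith
    refine ⟨(z, ⟨y, hy⟩), ?_, rfl⟩
    refine loop3_congr H (fun k hk => ?_) (fun k hk => ?_) (fun k hk => ?_)
    · show p ((ph n k : Fin (n + 1)) : ℕ) = p k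
      rw [ph_val hk]
    · show u ((ph n k : Fin (n + 1)) : ℕ) = u k
      rw [ph_val hk]
    · show (if ((ph n k : Fin (n + 1)) : ℕ) < n then τ ((ph n k : Fin (n + 1)) : ℕ) else 0) = τ k
      rw [ph_val hk.le, if_pos hk]
  · rintro ⟨⟨z', y⟩, H, rfl⟩
    exact ⟨_, _, _, _, _, H⟩

end Q285.IW
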