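import Pool.Agent.Q263.IW.Def

/-!
# Project IWP (helper263), job LOOP: a trajectory which comes back to its first bounce point is a loop
(helper285). Adapted from `Pool/Agent/Q144/IV/Loop.lean`.
-/

set_option autoImplicit false

open Set MeasureTheory Function Filter Topology
open scoped unitInterval ContDiff

namespace Q285.IW

open Pool.Agent.Y322.IV
open Q263.IV Q263.IW

/-- A returning trajectory is a loop. -/
theorem loop3 : S_LOOP3 := by
  classical
  intro E _ _ _ S _ m h P1 P2 n ι p u hn1 H HT hret hneg b hg hg0 e he hue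
  set α : ℝ := inner ℝ e (u 0) with hα
  set w : E := α⁻¹ • u 0 - e with hw
  have hew : e + w = α⁻¹ • u 0 := by rw [hw]; abel
  have hwK : w ∈ (ℝ ∙ e)ᗮ := by
    rw [Submodule.mem_orthogonal_singleton_iff_inner_right, hw, inner_sub_right,
      inner_smul_right, real_inner_self_eq_norm_sq, he, ← hα]
    field_simp
    ring
  set a : ℝ := inner ℝ e (p 0) with ha
  set y : E := p 0 - a • (e + w) with hy
  have hyK : y ∈ (ℝ ∙ e)ᗮ := by
    rw [Submodule.mem_orthogonal_singleton_iff_inner_right, hy, inner_sub_right,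
      inner_smul_right, inner_add_right, real_inner_self_eq_norm_sq, he,
      (Submodule.mem_orthogonal_singleton_iff_inner_right).1 hwK, ← ha]
    ring
  have hu0 : ‖u 0‖ = 1 := (H.1 0 (Nat.zero_le _)).2.2.1
  have hnorm : ‖e + w‖ = α⁻¹ := by
    rw [hew, norm_smul, hu0, mul_one, norm_inv, Real.norm_of_nonneg hue.le]
  have hch : ∀ k : ℕ, ∃ t : ℝ, k < n → 0 < t ∧ p (k + 1) = p k + t • u k := by
    intro k
    by_cases hk : k < n
    · obtain ⟨t, ht⟩ := (H.2 k hk).1
      exact ⟨t, fun _ => ⟨ht.1, ht.2.1⟩⟩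
    · exact ⟨0, fun h0 => absurd h0 hk⟩
  choose τ hτ using hch
  have hwall : ι n = ι 0 := by
    by_contra hne
    have h1 := (H.1 0 (Nat.zero_le _)).2.1 (ι n) hne
    have h2 := (H.1 n le_rfl).1
    rw [hret] at h2
    linarith
  have hnn : 0 < ‖u (n - 1) + u 0‖ := by
    rw [norm_pos_iff]
    intro h0
    exact hneg (eq_neg_of_add_eq_zero_left h0)
  have hev : ∀ᶠ m : ℕ in atTop, ‖y‖ ≤ (m : ℝ) + 1 ∧ ‖w‖ ≤ (m : ℝ) + 1 ∧ |a| ≤ (m : ℝ) + 1 ∧
      (∀ k ∈ Iic n, 1 / ((m : ℝ) + 1) ≤ -inner ℝ (u k) (gradient (h (ι k)) (p k))) ∧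
      (∀ k ∈ Iio n, 1 / ((m : ℝ) + 1) ≤ τ k ∧ τ k ≤ (m : ℝ) + 1) ∧
      1 / ((m : ℝ) + 1) ≤ P1 (ι 0) b (p 0) ∧ 1 / ((m : ℝ) + 1) ≤ ‖u (n - 1) + u 0‖ ∧
      ‖b‖ ≤ (m : ℝ) + 1 := by
    refine (ev_large _).and ((ev_large _).and ((ev_large _).and (Eventually.and ?_
      (Eventually.and ?_ ((ev_small hg).and ((ev_small hnn).and (ev_large _)))))))
    · refine (Filter.eventually_all_finite (Set.finite_Iic n)).2 fun k hk => ev_small ?_
      have := (H.1 k hk).2.2.2
      linarith
    · refine (Filter.eventually_all_finite (Set.finite_Iio n)).2 fun k hk => ?_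
      exact (ev_small (hτ k hk).1).and (ev_large _)
  obtain ⟨M, h1, h2, h3, h4, h5, h6, h7, h8⟩ := hev.exists
  have hstart : p 0 = y + a • (e + w) := by rw [hy]; abel
  have hu0' : u 0 = ‖e + w‖⁻¹ • (e + w) := by
    rw [hnorm, hew, smul_smul, inv_inv, mul_inv_cancel₀ hue.ne', one_smul]
  refine ⟨M, y, ‖e + w‖⁻¹ • (e + w), a * ‖e + w‖,
    ⟨(⟨y, hyK⟩, ⟨w, hwK⟩), ⟨⟨a, p, u, τ, b, ?_⟩, mem_univ _⟩, rfl⟩, ?_, ?_, ?_⟩
  · exact
      { ybd := h1
        wbd := h2
        abd := h3
        start := hstart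
        dir := by rw [hnorm, hew]
        zero := fun k hk => (H.1 k hk).1
        unit := fun k hk => (H.1 k hk).2.2.1
        out := fun k hk => by
          have := h4 k hk
          show inner ℝ (u k) (gradient (h (ι k)) (p k)) ≤ _
          linarith
        tlo := fun k hk => (h5 k hk).1
        thi := fun k hk => (h5 k hk).2
        move := fun k hk => (hτ k hk).2
        refl := by
          intro k hk
          have hlt := (H.1 (k + 1) hk).2.2.2
          have hgk : gradient (h (ι (k + 1))) (p (k + 1)) ≠ 0 := by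
            intro h0
            rw [h0, inner_zero_right] at hlt
            exact lt_irrefl _ hlt
          have hgn : ‖gradient (h (ι (k + 1))) (p (k + 1))‖ ^ 2 ≠ 0 := by positivity
          show ‖gradient (h (ι (k + 1))) (p (k + 1))‖ ^ 2 • u (k + 1) = _
          rw [(H.2 k hk).2, smul_sub, smul_smul]
          congr 2
          field_simp
        ret := hret
        wall := hwall
        nonret := h7
        bbd := h8
        sep0 := h6
        sep1 := fun k hk hkn => (hg0 k hk hkn).1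
        sep2 := fun k hk hkn => (hg0 k hk hkn).2 }
  all_goals
    have hnz : ‖e + w‖ ≠ 0 := by rw [hnorm]; exact (inv_pos.2 hue).ne'
    have hpt : y + (a * ‖e + w‖) • ‖e + w‖⁻¹ • (e + w) = p 0 := by
      rw [smul_smul, mul_assoc, mul_inv_cancel₀ hnz, mul_one, ← hstart]
  · rw [hpt]; exact (HT.1 0 (Nat.zero_le _)).1
  · rw [hpt, ← hu0']; exact (HT.1 0 (Nat.zero_le _)).2.2.ne
  · rw [hpt, ← hu0']

end Q285.IW
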