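import Pool.Agent.Q263.IW.Def

/-!
# Project IWP (helper263), job PROD: a trajectory in the table with several walls is a trajectory for
minus the product of the minus wall functions (helper285).
-/

set_option autoImplicit false

open Set MeasureTheory Function Filter Topology
open scoped unitInterval ContDiff

namespace Q285.IW

open Pool.Agent.Y322.IV
open Q263.IV Q263.IW

section

variable {E : Type} [NormedAddCommGroup E] [InnerProductSpace ℝ E]

theorem wallProd_contDiff {m : ℕ} {h : Fin m → E → ℝ} (hh : ∀ i, ContDiff ℝ 2 (h i)) :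
    ContDiff ℝ 2 (wallProd h) := by
  unfold wallProd
  exact (contDiff_prod fun i _ => (hh i).neg).neg

/-- the product of the other wall functions -/
def others {m : ℕ} (h : Fin m → E → ℝ) (i : Fin m) (x : E) : ℝ := ∏ j ∈ Finset.univ.erase i, -h j x

theorem wallProd_eq {m : ℕ} (h : Fin m → E → ℝ) (i : Fin m) (x : E) :
    wallProd h x = h i x * others h i x := by
  unfold wallProd others
  rw [← Finset.mul_prod_erase Finset.univ (fun j => -h j x) (Finset.mem_univ i)]
  ring

theorem others_pos {m : ℕ} {h : Fin m → E → ℝ} {i : Fin m} {x : E} (hx : ∀ j, j ≠ i → h j x < 0) :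
    0 < others h i x := by
  unfold others
  refine Finset.prod_pos fun j hj => ?_
  have := hx j (Finset.ne_of_mem_erase hj)
  linarith

theorem gradient_wallProd [CompleteSpace E] {m : ℕ} {h : Fin m → E → ℝ}
    (hh : ∀ i, ContDiff ℝ 2 (h i)) {i : Fin m} {x : E}
    (h0 : h i x = 0) : gradient (wallProd h) x = others h i x • gradient (h i) x := by
  have e : wallProd h = fun x => h i x * others h i x := funext fun x => wallProd_eq h i x
  have d1 : DifferentiableAt ℝ (h i) x := (hh i).differentiable (by norm_num) x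
  have d2 : DifferentiableAt ℝ (others h i) x := by
    have : ContDiff ℝ 2 (others h i) := by
      unfold others
      exact contDiff_prod fun j _ => (hh j).neg
    exact this.differentiable (by norm_num) x
  have d3 := d1.hasFDerivAt.mul d2.hasFDerivAt
  have d4 : fderiv ℝ (wallProd h) x = others h i x • fderiv ℝ (h i) x := by
    rw [e]
    have := d3.fderiv
    rw [h0, zero_smul, zero_add] at this
    exact this
  unfold gradient
  rw [d4]
  simp

theorem refl_smul {v g : E} {c : ℝ} (hc : 0 < c) :
    (2 * inner ℝ v (c • g) / ‖c • g‖ ^ 2) • (c • g) = (2 * inner ℝ v g / ‖g‖ ^ 2) • g := by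
  rcases eq_or_ne g 0 with h | h
  · rw [h]; simp
  · have hg : ‖g‖ ≠ 0 := norm_ne_zero_iff.2 h
    rw [norm_smul, Real.norm_of_nonneg hc.le, inner_smul_right, smul_smul]
    congr 1
    field_simp

end

/-- job PROD -/
theorem prod3 : S_PROD := by
  intro E _ _ _ m h hh
  refine ⟨wallProd_contDiff hh, fun n ι p u H => ?_⟩
  have hg : ∀ k ≤ n, gradient (wallProd h) (p k) = others h (ι k) (p k) • gradient (h (ι k)) (p k) ∧
      0 < others h (ι k) (p k) := fun k hk =>
    ⟨gradient_wallProd hh (H.1 k hk).1, others_pos (H.1 k hk).2.1⟩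
  refine ⟨fun k hk => ?_, fun k hk => ?_⟩
  · obtain ⟨h1, h2, h3, h4⟩ := H.1 k hk
    refine ⟨?_, h3, ?_⟩
    · rw [wallProd_eq h (ι k), h1, zero_mul]
    · rw [(hg k hk).1, inner_smul_right]
      exact mul_neg_of_pos_of_neg (hg k hk).2 h4
  · obtain ⟨⟨t, ht, hp, hs⟩, hu⟩ := H.2 k hk
    refine ⟨⟨t, ht, hp, fun s hst => ?_⟩, ?_⟩
    · unfold wallProd
      rw [neg_lt_zero]
      refine Finset.prod_pos fun j _ => ?_
      have := hs s hst j
      linarith
    · rw [(hg (k + 1) hk).1, refl_smul (hg (k + 1) hk).2]
      exact hu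

end Q285.IW
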